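import Pool.Agent.Helper48.AX.Defs

/-!
# MP_efd95c_co, module HA: the sets `T` are periodic closed arcs
-/

set_option autoImplicit false

open scoped MeasureTheory ENNReal
open Complex

noncomputable section

namespace AX

theorem ha_re (v : ℂ) (θ : ℝ) : (v * (starRingEnd ℂ) (e θ)).re =
    v.re * Real.cos θ + v.im * Real.sin θ := by
  have h1 : (e θ).re = Real.cos θ := by
    unfold e
    rw [Complex.exp_ofReal_mul_I_re]
  have h2 : (e θ).im = Real.sin θ := by
    unfold e
    rw [Complex.exp_ofReal_mul_I_im]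
  rw [Complex.mul_re, Complex.conj_re, Complex.conj_im, h1, h2]
  ring

theorem ha_sup (r : ℝ) (a : ℂ) (t : ℝ) (b : ℂ) : Sup r a t b ↔
    dist a b ^ 2 ≤ 2 * r * ((b - a).re * Real.cos t + (b - a).im * Real.sin t) := by
  unfold Sup
  rw [ha_re]

theorem ha_closed (r : ℝ) (a b : ℂ) : IsClosed {t : ℝ | Sup r a t b} := by
  simp only [ha_sup]
  exact isClosed_le continuous_const (by fun_prop)

theorem ha_per (r : ℝ) (a b : ℂ) (t : ℝ) (z : ℤ) :
    Sup r a (t - 2 * Real.pi * z) b ↔ Sup r a t b := by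
  rw [ha_sup, ha_sup]
  have h1 : Real.cos (t - 2 * Real.pi * z) = Real.cos t := by
    rw [mul_comm]
    exact Real.cos_sub_int_mul_two_pi t z
  have h2 : Real.sin (t - 2 * Real.pi * z) = Real.sin t := by
    rw [mul_comm]
    exact Real.sin_sub_int_mul_two_pi t z
  rw [h1, h2]

/-- between two angles at distance less than `π` -/
theorem ha_mid {r : ℝ} {a b : ℂ} {t1 t2 t : ℝ} (h1 : t1 ≤ t) (h2 : t ≤ t2)
    (h3 : t2 < t1 + Real.pi) (s1 : Sup r a t1 b) (s2 : Sup r a t2 b) : Sup r a t b := by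
  rcases eq_or_lt_of_le (h1.trans h2) with h4 | h4
  · have h5 : t = t1 := le_antisymm (by rw [h4]; exact h2) h1
    rw [h5]
    exact s1
  · rw [ha_sup] at *
    have hs : 0 < Real.sin (t2 - t1) := Real.sin_pos_of_pos_of_lt_pi (by linarith) (by linarith)
    have hα : 0 ≤ Real.sin (t2 - t) := Real.sin_nonneg_of_nonneg_of_le_pi (by linarith)
      (by linarith)
    have hβ : 0 ≤ Real.sin (t - t1) := Real.sin_nonneg_of_nonneg_of_le_pi (by linarith)
      (by linarith)
    have hsum : Real.sin (t2 - t1) ≤ Real.sin (t2 - t) + Real.sin (t - t1) := by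
      have e1 : t2 - t1 = (t2 - t) + (t - t1) := by ring
      rw [e1, Real.sin_add]
      have e2 := Real.cos_le_one (t2 - t)
      have e3 := Real.cos_le_one (t - t1)
      nlinarith
    have hc : Real.cos t * Real.sin (t2 - t1) =
        Real.sin (t2 - t) * Real.cos t1 + Real.sin (t - t1) * Real.cos t2 := by
      rw [Real.sin_sub, Real.sin_sub, Real.sin_sub]
      ring
    have hsn : Real.sin t * Real.sin (t2 - t1) =
        Real.sin (t2 - t) * Real.sin t1 + Real.sin (t - t1) * Real.sin t2 := by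
      rw [Real.sin_sub, Real.sin_sub, Real.sin_sub]
      ring
    have hd : 0 ≤ dist a b ^ 2 := sq_nonneg _
    have k1 := mul_le_mul_of_nonneg_left s1 hα
    have k2 := mul_le_mul_of_nonneg_left s2 hβ
    have k3 := mul_le_mul_of_nonneg_right hsum hd
    refine le_of_mul_le_mul_right ?_ hs
    have k4 : 2 * r * ((b - a).re * Real.cos t + (b - a).im * Real.sin t) * Real.sin (t2 - t1) =
        Real.sin (t2 - t) * (2 * r * ((b - a).re * Real.cos t1 + (b - a).im * Real.sin t1)) +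
        Real.sin (t - t1) * (2 * r * ((b - a).re * Real.cos t2 + (b - a).im * Real.sin t2)) := by
      linear_combination 2 * r * (b - a).re * hc + 2 * r * (b - a).im * hsn
    rw [k4]
    linarith

theorem st_HA (h : ST_TSUP) : ST_HA := by
  intro n r c i hr hc hT
  obtain ⟨j0, hj0⟩ : ∃ j0 : Fin (n + 2), j0 ≠ i := exists_ne i
  have hv : c j0 - c i ≠ 0 := sub_ne_zero.2 (fun h1 => hj0 (hc h1))
  obtain ⟨φ, hφ⟩ : ∃ φ, φ = Complex.arg (c j0 - c i) := ⟨_, rfl⟩
  obtain ⟨d, hd⟩ : ∃ d, d = ‖c j0 - c i‖ := ⟨_, rfl⟩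
  have hd0 : 0 < d := by
    rw [hd]
    exact norm_pos_iff.2 hv
  have hre : (c j0 - c i).re = d * Real.cos φ := by
    rw [hd, hφ, Complex.norm_mul_cos_arg]
  have him : (c j0 - c i).im = d * Real.sin φ := by
    rw [hd, hφ, Complex.norm_mul_sin_arg]
  have hcos : ∀ θ, Sup r (c i) θ (c j0) → 0 < Real.cos (θ - φ) := by
    intro θ hθ
    rw [ha_sup, hre, him, dist_comm, dist_eq_norm, ← hd] at hθ
    have h1 : Real.cos (θ - φ) = Real.cos θ * Real.cos φ + Real.sin θ * Real.sin φ :=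
      Real.cos_sub θ φ
    have h2 : 2 * r * (d * Real.cos φ * Real.cos θ + d * Real.sin φ * Real.sin θ) =
        2 * r * d * Real.cos (θ - φ) := by
      rw [h1]
      ring
    rw [h2] at hθ
    have h3 : 0 < d ^ 2 := by positivity
    by_contra h4
    have h5 : 2 * r * d * Real.cos (θ - φ) ≤ 0 :=
      mul_nonpos_of_nonneg_of_nonpos (by positivity) (not_lt.1 h4)
    linarith
  obtain ⟨A, hA⟩ : ∃ A : Set ℝ, A = Set.Icc (φ - Real.pi / 2) (φ + Real.pi / 2) ∩
    ⋂ j, {t : ℝ | Sup r (c i) t (c j)} := ⟨_, rfl⟩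
  have hAc : IsCompact A := by
    rw [hA]
    exact isCompact_Icc.inter_right (isClosed_iInter fun j => ha_closed _ _ _)
  have hAm : ∀ t, t ∈ A ↔ t ∈ Set.Icc (φ - Real.pi / 2) (φ + Real.pi / 2) ∧
      ∀ j, Sup r (c i) t (c j) := by
    intro t
    rw [hA, Set.mem_inter_iff, Set.mem_iInter]
    exact Iff.rfl
  have hshift : ∀ θ, θ ∈ T r c i → ∃ z : ℤ, θ - 2 * Real.pi * z ∈ A := by
    intro θ hθ
    have h1 := (h _ r c i θ hr).1 hθ
    have h2 := hcos θ (h1 j0)
    obtain ⟨z, hz⟩ : ∃ z : ℤ, |θ - φ - 2 * Real.pi * z| ≤ Real.pi := by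
      refine ⟨round ((θ - φ) / (2 * Real.pi)), ?_⟩
      have h3 := abs_sub_round ((θ - φ) / (2 * Real.pi))
      have hpi := Real.pi_pos
      have h4 : θ - φ - 2 * Real.pi * (round ((θ - φ) / (2 * Real.pi)) : ℝ) =
          2 * Real.pi * ((θ - φ) / (2 * Real.pi) - (round ((θ - φ) / (2 * Real.pi)) : ℝ)) := by
        field_simp
      rw [h4, abs_mul, abs_of_pos (by positivity)]
      nlinarith
    refine ⟨z, (hAm _).2 ⟨?_, fun j => (ha_per _ _ _ _ _).2 (h1 j)⟩⟩
    have h3 : 0 < Real.cos (θ - φ - 2 * Real.pi * z) := by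
      rw [mul_comm (2 * Real.pi) (z : ℝ), Real.cos_sub_int_mul_two_pi]
      exact h2
    have h4 : |θ - φ - 2 * Real.pi * z| ≤ Real.pi / 2 := by
      by_contra h5
      push Not at h5
      rw [← Real.cos_abs] at h3
      have h6 := Real.cos_nonpos_of_pi_div_two_le_of_le h5.le (by linarith)
      linarith
    rw [abs_le] at h4
    constructor <;> linarith
  obtain ⟨θ0, hθ0⟩ := hT
  obtain ⟨z0, hz0⟩ := hshift θ0 hθ0
  have hAn : A.Nonempty := ⟨_, hz0⟩
  obtain ⟨a, haA, ha⟩ := hAc.exists_isMinOn hAn continuousOn_id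
  obtain ⟨b, hbA, hb⟩ := hAc.exists_isMaxOn hAn continuousOn_id
  have ha' : ∀ t ∈ A, a ≤ t := fun t ht => ha ht
  have hb' : ∀ t ∈ A, t ≤ b := fun t ht => hb ht
  have hlt : ∀ t ∈ A, φ - Real.pi / 2 < t ∧ t < φ + Real.pi / 2 := by
    intro t ht
    obtain ⟨h1, h2⟩ := (hAm t).1 ht
    have h3 := hcos t (h2 j0)
    constructor
    · rcases eq_or_lt_of_le h1.1 with h4 | h4
      · rw [← h4] at h3
        have h5 : φ - Real.pi / 2 - φ = -(Real.pi / 2) := by ring
        rw [h5, Real.cos_neg, Real.cos_pi_div_two] at h3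
        exact absurd h3 (lt_irrefl _)
      · exact h4
    · rcases eq_or_lt_of_le h1.2 with h4 | h4
      · rw [h4] at h3
        have h5 : φ + Real.pi / 2 - φ = Real.pi / 2 := by ring
        rw [h5, Real.cos_pi_div_two] at h3
        exact absurd h3 (lt_irrefl _)
      · exact h4
  have hba : b < a + Real.pi := by
    have h1 := (hlt a haA).1
    have h2 := (hlt b hbA).2
    linarith
  refine ⟨a, b, ha' b hbA, hba, fun θ => ⟨fun hθ => ?_, ?_⟩⟩
  · obtain ⟨z, hz⟩ := hshift θ hθ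
    have h1 := ha' _ hz
    have h2 := hb' _ hz
    exact ⟨z, by linarith, by linarith⟩
  · rintro ⟨z, h1, h2⟩
    rw [h _ r c i θ hr]
    intro j
    rw [← ha_per _ _ _ θ z]
    exact ha_mid (by linarith) (by linarith) hba (((hAm a).1 haA).2 j) (((hAm b).1 hbA).2 j)

end AX
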