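import Pool.Agent.Helper48.AX.Defs

/-!
# MP_efd95c_co, module MIN: a minimal subfamily with the same intersection
-/

set_option autoImplicit false

open scoped MeasureTheory ENNReal
open Complex

noncomputable section

namespace AX

/-- a crossing point on a circle -/
theorem min_cross (r : ℝ) (a x y : ℂ) (hx : dist x a ≤ r) (hy : r < dist y a) :
    ∃ t : ℝ, 0 ≤ t ∧ t ≤ 1 ∧ dist (x + (t : ℂ) * (y - x)) a = r := by
  have hc : ContinuousOn (fun t : ℝ => dist (x + (t : ℂ) * (y - x)) a) (Set.Icc 0 1) := by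
    fun_prop
  have h := intermediate_value_Icc (zero_le_one' ℝ) hc
  have h0 : dist (x + ((0 : ℝ) : ℂ) * (y - x)) a = dist x a := by simp
  have h1 : dist (x + ((1 : ℝ) : ℂ) * (y - x)) a = dist y a := by simp
  obtain ⟨t, ht, ht'⟩ := h (show r ∈ Set.Icc _ _ from ⟨by
    show dist (x + ((0 : ℝ) : ℂ) * (y - x)) a ≤ r
    rw [h0]
    exact hx, by
    show r ≤ dist (x + ((1 : ℝ) : ℂ) * (y - x)) a
    rw [h1]
    exact hy.le⟩)
  exact ⟨t, ht.1, ht.2, ht'⟩

theorem min_conv (r : ℝ) (a x y : ℂ) (hx : dist x a ≤ r) (hy : dist y a ≤ r) (t : ℝ)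
    (h0 : 0 ≤ t) (h1 : t ≤ 1) : dist (x + (t : ℂ) * (y - x)) a ≤ r := by
  have h := (convex_closedBall a r) (Metric.mem_closedBall.2 hx) (Metric.mem_closedBall.2 hy)
    (sub_nonneg.2 h1) h0 (by ring)
  have e : (1 - t) • x + t • y = x + (t : ℂ) * (y - x) := by
    simp only [real_smul]
    push_cast
    ring
  rw [e] at h
  exact Metric.mem_closedBall.1 h

theorem st_MIN : ST_MIN := by
  classical
  intro n r q J hr hK hJ
  obtain ⟨J', hJ', hmin⟩ := Finset.exists_min_image
    (J.powerset.filter (fun A => (⋂ i ∈ A, Metric.closedBall (q i) r) = K r q)) Finset.card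
    ⟨J, Finset.mem_filter.2 ⟨Finset.mem_powerset_self J, hJ⟩⟩
  rw [Finset.mem_filter, Finset.mem_powerset] at hJ'
  obtain ⟨hsub, hI⟩ := hJ'
  have hout : ∀ j ∈ J', ∃ y : ℂ, (∀ i ∈ J', i ≠ j → dist y (q i) ≤ r) ∧ r < dist y (q j) := by
    intro j hj
    by_contra hcon
    push Not at hcon
    have h1 : (⋂ i ∈ J'.erase j, Metric.closedBall (q i) r) = K r q := by
      rw [← hI]
      ext y
      simp only [Set.mem_iInter, Metric.mem_closedBall]
      constructor
      · intro h i hi
        by_cases hij : i = j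
        · rw [hij]
          exact hcon y (fun i hi hij => h i (Finset.mem_erase.2 ⟨hij, hi⟩))
        · exact h i (Finset.mem_erase.2 ⟨hij, hi⟩)
      · intro h i hi
        exact h i (Finset.mem_of_mem_erase hi)
    have h2 := hmin (J'.erase j) (Finset.mem_filter.2 ⟨Finset.mem_powerset.2
      ((Finset.erase_subset _ _).trans hsub), h1⟩)
    have h3 := Finset.card_erase_lt_of_mem hj
    omega
  have hg : ∀ i : Fin J'.card, (J'.equivFin.symm i).1 ∈ J' := fun i => (J'.equivFin.symm i).2
  have hginj : ∀ i i' : Fin J'.card, (J'.equivFin.symm i).1 = (J'.equivFin.symm i').1 → i = i' := by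
    intro i i' h
    exact J'.equivFin.symm.injective (Subtype.ext h)
  have hKg : K r (fun i : Fin J'.card => q (J'.equivFin.symm i).1) = K r q := by
    rw [← hI]
    ext y
    simp only [K, Set.mem_iInter, Metric.mem_closedBall]
    constructor
    · intro h i hi
      have h1 := h (J'.equivFin ⟨i, hi⟩)
      rwa [Equiv.symm_apply_apply] at h1
    · intro h i
      exact h _ (hg i)
  refine ⟨J'.card, fun i => (J'.equivFin.symm i).1, ?_, fun i => hsub (hg i), hKg, ?_⟩
  · intro i i' h
    by_contra hne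
    obtain ⟨y, hy1, hy2⟩ := hout _ (hg i)
    have h1 := hy1 _ (hg i') (fun h2 => hne (hginj _ _ h2).symm)
    have h2 : q (J'.equivFin.symm i).1 = q (J'.equivFin.symm i').1 := h
    rw [h2] at hy2
    exact absurd h1 (not_le.2 hy2)
  · intro i
    obtain ⟨y, hy1, hy2⟩ := hout _ (hg i)
    obtain ⟨x, hx⟩ := hK
    have hx' : ∀ j, dist x (q j) ≤ r := by
      intro j
      have := Set.mem_iInter.1 hx j
      exact Metric.mem_closedBall.1 this
    obtain ⟨t, ht0, ht1, ht⟩ := min_cross r _ x y (hx' _) hy2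
    refine ⟨Complex.arg (x + (t : ℂ) * (y - x) - q (J'.equivFin.symm i).1), ?_⟩
    have h1 : q (J'.equivFin.symm i).1 + (r : ℂ) *
        e (Complex.arg (x + (t : ℂ) * (y - x) - q (J'.equivFin.symm i).1)) =
        x + (t : ℂ) * (y - x) := by
      have h2 := Complex.norm_mul_exp_arg_mul_I (x + (t : ℂ) * (y - x) -
        q (J'.equivFin.symm i).1)
      rw [← dist_eq_norm, ht] at h2
      unfold e
      rw [h2]
      ring
    show q (J'.equivFin.symm i).1 + (r : ℂ) *
        e (Complex.arg (x + (t : ℂ) * (y - x) - q (J'.equivFin.symm i).1)) ∈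
        K r (fun i : Fin J'.card => q (J'.equivFin.symm i).1)
    rw [h1, hKg, ← hI]
    simp only [Set.mem_iInter, Metric.mem_closedBall]
    intro j hj
    by_cases hij : j = (J'.equivFin.symm i).1
    · rw [hij]
      exact ht.le
    · exact min_conv r _ _ _ (hx' j) (hy1 j hj hij) t ht0 ht1

end AX
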